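import Mathlib
import Pool.Agent.Lib.MP_b6048d_co.Growth

set_option autoImplicit false

/-!
A graph `G` with `δ(G) ≠ 1` satisfies a local-to-global colouring principle: if `H` is a subgraph
of radius at most `r` all of whose balls of radius `ρ` are `c`-colourable, then
`χ(H) ≤ C c (1 + log r / log (ρ + 1)) ^ (2 + ε)`, with `C` depending on `G` and `ε` only.
For `ρ = 1` the bound holds (with `c = 1`) without any local assumption.
-/

namespace Pool.Agent.Lib.MP_b6048d_co.Old.LocalToGlobal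

open Pool.Agent.Lib.MP_b6048d_co

theorem result :
    ∀ (V : Type) (G : SimpleGraph V),
      Filter.limsup
        (fun N : ℕ =>
          (1 / Real.log (N : ℝ)) *
            ∑ m ∈ Finset.range N,
              ({n : ℕ | ∃ (v : V) (p : G.Walk v v), p.IsCycle ∧ p.length = n}).indicator
                (fun k : ℕ => (1 : ℝ) / (k : ℝ)) m)
        Filter.atTop ≠ 1 →
      ∀ ε : ℝ, 0 < ε → ∃ C : ℝ, 0 < C ∧
        ∀ (H : G.Subgraph) (r ρ c : ℕ), 1 ≤ r → 1 ≤ ρ → 1 ≤ c →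
          (∃ v : H.verts, ∀ x : H.verts, ∃ p : H.coe.Walk v x, p.length ≤ r) →
          (ρ = 1 ∨ ∀ v : H.verts,
            (H.coe.induce {x | ∃ p : H.coe.Walk v x, p.length ≤ ρ}).Colorable c) →
          H.coe.Colorable
            ⌊C * c * (1 + Real.log (r : ℝ) / Real.log ((ρ : ℝ) + 1)) ^ (2 + ε)⌋₊ := by
  intro V G hG ε hε
  set S : Set ℕ := {n : ℕ | ∃ (v : V) (p : G.Walk v v), p.IsCycle ∧ p.length = n} with hS
  have hnot : ∀ ℓ, ℓ ∉ S → Missing G ℓ := by
    intro ℓ hℓ D hD hDl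
    obtain ⟨v, p, hp1, hp2⟩ := hD.toWalk
    exact hℓ ⟨v, p, hp1, hp2.trans hDl⟩
  obtain ⟨A, hA2, R, hmiss⟩ : ∃ A : ℕ, 2 ≤ A ∧ ∃ R : ℕ, Miss G A R := by
    by_contra hcon
    push Not at hcon
    apply hG
    apply log_density
    intro A hA R
    have h1 := hcon A hA R
    unfold Miss at h1
    push Not at h1
    obtain ⟨r, hr, h2⟩ := h1
    refine ⟨r, hr, ?_⟩
    intro ℓ hℓ1 hℓ2
    by_contra hℓS
    exact h2 ℓ hℓ1 hℓ2 (hnot ℓ hℓS)
  obtain ⟨C, hC, hgrow⟩ := growth (by omega) hmiss (2 + ε) (by linarith)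
  refine ⟨C, hC, ?_⟩
  intro H r ρ c hr hρ hc hrad hloc
  have hmap : ∀ ℓ, Missing G ℓ → Missing H.coe ℓ := by
    intro ℓ hℓ
    exact Missing.of_map (f := fun x : H.verts => x.1) Subtype.val_injective
      (fun x y hxy => H.adj_sub hxy) hℓ
  have hloc' : ρ = 1 ∨ Loc H.coe ρ c := by
    rcases hloc with h | h
    · exact Or.inl h
    · exact Or.inr (Loc.of_ball hc h)
  obtain ⟨k, -, hk, hlock⟩ := hgrow H.coe hmap ρ c hρ hc hloc' r hr
  have hcol : H.coe.Colorable k := by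
    obtain ⟨v, hv⟩ := hrad
    obtain ⟨θ, hθ⟩ := hlock v
    exact ⟨SimpleGraph.Coloring.mk θ (fun {x y} hxy => hθ x y hxy (hv x) (hv y))⟩
  exact hcol.mono (Nat.le_floor hk)

end Pool.Agent.Lib.MP_b6048d_co.Old.LocalToGlobal
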